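import Mathlib

set_option autoImplicit false

open Set Filter Topology

namespace Pool.Agent.H.MP_c6a450_an

inductive Ex : Type
  | x (i : Fin 3) | y (i : Fin 3) | m (i : Fin 3)
  | add (a b : Ex) | mul (a b : Ex) | neg (a : Ex)

def Ex.eval {α : Type*} [Add α] [Mul α] [Neg α] (X Y M : Fin 3 → α) : Ex → α
  | .x i => X i
  | .y i => Y i
  | .m i => M i
  | .add a b => a.eval X Y M + b.eval X Y M
  | .mul a b => a.eval X Y M * b.eval X Y M
  | .neg a => -a.eval X Y M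

abbrev VF : Type := Fin 3 → Ex × Ex

def dX (V : VF) (i : Fin 3) : Ex := .add (V (i + 1)).1 (.neg (V i).1)
def dY (V : VF) (i : Fin 3) : Ex := .add (V (i + 1)).2 (.neg (V i).2)
def dS (V : VF) (i : Fin 3) : Ex := .add (.mul (.x i) (dX V i)) (.mul (.y i) (dY V i))

def D (V : VF) : Ex → Ex
  | .x i => .mul (.m i) (.add (dX V i) (.neg (.mul (.x i) (dS V i))))
  | .y i => .mul (.m i) (.add (dY V i) (.neg (.mul (.y i) (dS V i))))
  | .m i => .neg (.mul (.mul (.m i) (.m i)) (dS V i))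
  | .add a b => .add (D V a) (D V b)
  | .mul a b => .add (.mul (D V a) b) (.mul a (D V b))
  | .neg a => .neg (D V a)

def DV (V W : VF) : VF := fun i => (D V (W i).1, D V (W i).2)
def br (V W : VF) : VF := fun i =>
  (.add (D V (W i).1) (.neg (D W (V i).1)), .add (D V (W i).2) (.neg (D W (V i).2)))
def xi : VF := fun i => (.add (.x (i - 1)) (.x i), .add (.y (i - 1)) (.y i))
def eta : VF := fun i => (.add (.x (i - 1)) (.neg (.x i)), .add (.y (i - 1)) (.neg (.y i)))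
def ze : VF := DV eta xi
def v3 : VF := br xi ze
def v4 : VF := br xi v3

def X0 : Fin 3 → ℚ := ![1, 0, -3 / 5]
def Y0 : Fin 3 → ℚ := ![0, 1, -4 / 5]
def M0 : Fin 3 → ℚ := ![1 / 3, 1 / 4, 1 / 5]

def row (V : VF) : List ℚ := [(V 0).1.eval X0 Y0 M0, (V 0).2.eval X0 Y0 M0,
  (V 1).1.eval X0 Y0 M0, (V 1).2.eval X0 Y0 M0]

lemma row1 : row xi = [2 / 5, -4 / 5, 1, 1] := by decide +kernel
lemma row2 : row ze = [-4 / 125, -16 / 375, -1 / 10, -1 / 15] := by decide +kernel
lemma row3 : row v3 = [192 / 3125, -682 / 9375, 13 / 250, -31 / 375] := by decide +kernel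
lemma row4 : row v4 = [2912 / 46875, 1227 / 15625, 337 / 3750, 168 / 3125] := by decide +kernel

lemma eval_cast (X Y M : Fin 3 → ℚ) (e : Ex) :
    ((e.eval X Y M : ℚ) : ℝ) = e.eval (fun i => (X i : ℝ)) (fun i => (Y i : ℝ)) (fun i => (M i : ℝ)) := by
  induction e with
  | x i => rfl
  | y i => rfl
  | m i => rfl
  | add a b ha hb => simp only [Ex.eval, Rat.cast_add, ha, hb]
  | mul a b ha hb => simp only [Ex.eval, Rat.cast_mul, ha, hb]
  | neg a ha => simp only [Ex.eval, Rat.cast_neg, ha]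

abbrev E : Type := Fin 3 → ℂ

def Ngon (P : E) : Prop := ∀ i, P i ≠ P (i + 1)

noncomputable def LX (i : Fin 3) : E →L[ℝ] ℝ :=
  Complex.reCLM.comp ((ContinuousLinearMap.proj (i + 1) : E →L[ℝ] ℂ) - (ContinuousLinearMap.proj i : E →L[ℝ] ℂ))
noncomputable def LY (i : Fin 3) : E →L[ℝ] ℝ :=
  Complex.imCLM.comp ((ContinuousLinearMap.proj (i + 1) : E →L[ℝ] ℂ) - (ContinuousLinearMap.proj i : E →L[ℝ] ℂ))

lemma LX_apply (i : Fin 3) (P : E) : LX i P = (P (i + 1) - P i).re := rfl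
lemma LY_apply (i : Fin 3) (P : E) : LY i P = (P (i + 1) - P i).im := rfl

noncomputable def Mf (P : E) (i : Fin 3) : ℝ := ‖P (i + 1) - P i‖⁻¹
noncomputable def Xf (P : E) (i : Fin 3) : ℝ := Mf P i * LX i P
noncomputable def Yf (P : E) (i : Fin 3) : ℝ := Mf P i * LY i P

noncomputable def ev (e : Ex) (P : E) : ℝ := e.eval (Xf P) (Yf P) (Mf P)
noncomputable def evV (V : VF) (P : E) : E := fun i => (ev (V i).1 P : ℂ) + (ev (V i).2 P : ℂ) * Complex.I

lemma LX_evV (V : VF) (P : E) (i : Fin 3) : LX i (evV V P) = ev (dX V i) P := by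
  simp [LX_apply, evV, ev, dX, Ex.eval, sub_eq_add_neg]

lemma LY_evV (V : VF) (P : E) (i : Fin 3) : LY i (evV V P) = ev (dY V i) P := by
  simp [LY_apply, evV, ev, dY, Ex.eval, sub_eq_add_neg]

lemma hasM {P : E} (hP : Ngon P) (i : Fin 3) : HasFDerivAt (fun Q => Mf Q i)
    (-(Mf P i * Mf P i) • (Xf P i • LX i + Yf P i • LY i)) P := by
  have hn : ∀ Q : E, ‖Q (i + 1) - Q i‖ = √(LX i Q * LX i Q + LY i Q * LY i Q) := by
    intro Q
    rw [Complex.norm_def, Complex.normSq_apply]; rfl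
  have h0 : 0 < ‖P (i + 1) - P i‖ := norm_pos_iff.2 (sub_ne_zero.2 (hP i).symm)
  have h1 : LX i P * LX i P + LY i P * LY i P ≠ 0 := by
    intro h
    rw [hn, h, Real.sqrt_zero] at h0
    exact lt_irrefl _ h0
  have h2 := (((LX i).hasFDerivAt.mul (LX i).hasFDerivAt).add
    ((LY i).hasFDerivAt.mul (LY i).hasFDerivAt) (x := P)).sqrt h1
  have h3 : HasFDerivAt (fun Q : E => ‖Q (i + 1) - Q i‖) (Xf P i • LX i + Yf P i • LY i) P := by
    simp only [hn]
    refine h2.congr_fderiv ?_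
    ext h
    have := hn P
    simp only [Pi.add_apply, Pi.mul_apply, smul_apply,
      add_apply, smul_eq_mul, Xf, Yf, Mf, ← this]
    field_simp
    ring
  have h4 := (hasDerivAt_inv h0.ne').comp_hasFDerivAt P h3
  refine h4.congr_fderiv ?_
  congr 1
  simp only [Mf]
  field_simp

lemma hasEv {P : E} (hP : Ngon P) (e : Ex) : ∃ L : E →L[ℝ] ℝ, HasFDerivAt (ev e) L P ∧
    ∀ V, L (evV V P) = ev (D V e) P := by
  induction e with
  | x i =>
    refine ⟨_, (hasM hP i).mul (LX i).hasFDerivAt, fun V => ?_⟩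
    simp only [add_apply, smul_apply, smul_eq_mul, LX_evV,
      LY_evV]
    simp only [ev, D, dS, Ex.eval, Xf]
    ring
  | y i =>
    refine ⟨_, (hasM hP i).mul (LY i).hasFDerivAt, fun V => ?_⟩
    simp only [add_apply, smul_apply, smul_eq_mul, LX_evV,
      LY_evV]
    simp only [ev, D, dS, Ex.eval, Yf]
    ring
  | m i =>
    refine ⟨_, hasM hP i, fun V => ?_⟩
    simp only [add_apply, smul_apply, smul_eq_mul, LX_evV,
      LY_evV]
    simp only [ev, D, dS, Ex.eval]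
    ring
  | add a b ha hb =>
    obtain ⟨L, h1, h2⟩ := ha
    obtain ⟨L', h3, h4⟩ := hb
    exact ⟨_, h1.add h3, fun V => by rw [add_apply, h2, h4]; rfl⟩
  | mul a b ha hb =>
    obtain ⟨L, h1, h2⟩ := ha
    obtain ⟨L', h3, h4⟩ := hb
    refine ⟨_, h1.mul h3, fun V => ?_⟩
    simp only [add_apply, smul_apply, smul_eq_mul, h2, h4]
    simp only [ev, D, Ex.eval]
    ring
  | neg a ha =>
    obtain ⟨L, h1, h2⟩ := ha
    exact ⟨_, h1.neg, fun V => by rw [neg_apply, h2]; rfl⟩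

lemma hasEvV {P : E} (hP : Ngon P) (W : VF) : ∃ L : E →L[ℝ] E, HasFDerivAt (evV W) L P ∧
    ∀ V, L (evV V P) = evV (DV V W) P := by
  choose L1 h1 h2 using fun i => hasEv hP (W i).1
  choose L2 h3 h4 using fun i => hasEv hP (W i).2
  refine ⟨_, hasFDerivAt_pi.2 fun i => ((Complex.ofRealCLM.hasFDerivAt.comp P (h1 i)).add
    ((Complex.ofRealCLM.hasFDerivAt.comp P (h3 i)).mul_const Complex.I)), fun V => ?_⟩
  ext i
  simp [h2, h4, evV, DV, mul_comm]

lemma evV_br (V W : VF) (P : E) : evV (br V W) P = evV (DV V W) P - evV (DV W V) P := by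
  ext i
  simp only [evV, br, DV, ev, Ex.eval, Pi.sub_apply]
  push_cast
  ring

end Pool.Agent.H.MP_c6a450_an
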