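import Pool.Agent.H.MP_c6a450_an.A

set_option autoImplicit false

open Set Filter Topology

namespace Pool.Agent.H.MP_c6a450_an

noncomputable def q (t : ℝ) (P : E) : E := fun i => P i + t • (‖P i - P (i - 1)‖⁻¹ • (P i - P (i - 1)))
noncomputable def r (t : ℝ) (P : E) : E := fun i => P i + t • (‖P i - P (i + 1)‖⁻¹ • (P i - P (i + 1)))

noncomputable def ua (P : E) : E := fun i => ‖P i - P (i - 1)‖⁻¹ • (P i - P (i - 1))
noncomputable def ub (P : E) : E := fun i => ‖P i - P (i + 1)‖⁻¹ • (P i - P (i + 1))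

lemma q_eq (t : ℝ) (P : E) : q t P = P + t • ua P := rfl
lemma r_eq (t : ℝ) (P : E) : r t P = P + t • ub P := rfl

lemma ua_apply (P : E) (i : Fin 3) : ua P i = (Xf P (i - 1) : ℂ) + (Yf P (i - 1) : ℂ) * Complex.I := by
  apply Complex.ext <;> simp [ua, Xf, Yf, Mf, LX_apply, LY_apply]

lemma ub_apply (P : E) (i : Fin 3) : ub P i = -((Xf P i : ℂ) + (Yf P i : ℂ) * Complex.I) := by
  rw [ub, norm_sub_rev]
  apply Complex.ext <;> simp [Xf, Yf, Mf, LX_apply, LY_apply] <;> ring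

lemma evV_xi (P : E) : evV xi P = ua P - ub P := by
  ext i
  simp only [evV, xi, ev, Ex.eval, Pi.sub_apply, ua_apply, ub_apply]
  push_cast; ring

lemma evV_eta (P : E) : evV eta P = ua P + ub P := by
  ext i
  simp only [evV, eta, ev, Ex.eval, Pi.add_apply, ua_apply, ub_apply]
  push_cast; ring

section
variable {F : Type*} [NormedAddCommGroup F] [NormedSpace ℝ F] {U : Set E} {f : E → F}

def Ann (U : Set E) (f : E → F) (V : VF) : Prop := ∀ P ∈ U, fderiv ℝ f P (evV V P) = 0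

lemma Ann.deriv (hU : IsOpen U) (hN : ∀ P ∈ U, Ngon P) (hf : ContDiffOn ℝ 2 f U) {W : VF}
    (hW : Ann U f W) (V : VF) {P : E} (hP : P ∈ U) :
    fderiv ℝ (fderiv ℝ f) P (evV V P) (evV W P) + fderiv ℝ f P (evV (DV V W) P) = 0 := by
  obtain ⟨L, h1, h2⟩ := hasEvV (hN P hP) W
  have hc : ContDiffAt ℝ 2 f P := hf.contDiffAt (hU.mem_nhds hP)
  have hd : DifferentiableAt ℝ (fderiv ℝ f) P :=
    (hc.fderiv_right (m := 1) (by norm_num)).differentiableAt one_ne_zero
  have h3 := hd.hasFDerivAt.clm_apply h1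
  have h4 : HasFDerivAt (fun Q => fderiv ℝ f Q (evV W Q)) (0 : E →L[ℝ] F) P :=
    (hasFDerivAt_const (0 : F) P).congr_of_eventuallyEq
      (by filter_upwards [hU.mem_nhds hP] with Q hQ using hW Q hQ)
  have h5 := congrArg (fun T : E →L[ℝ] F => T (evV V P)) (h3.unique h4)
  simp only [add_apply, ContinuousLinearMap.comp_apply, ContinuousLinearMap.flip_apply, h2,
    zero_apply] at h5
  rw [add_comm]; exact h5

lemma Ann.br (hU : IsOpen U) (hN : ∀ P ∈ U, Ngon P) (hf : ContDiffOn ℝ 2 f U) {V W : VF}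
    (hV : Ann U f V) (hW : Ann U f W) : Ann U f (br V W) := by
  intro P hP
  have h1 := hW.deriv hU hN hf V hP
  have h2 := hV.deriv hU hN hf W hP
  have hs := (hf.contDiffAt (hU.mem_nhds hP)).isSymmSndFDerivAt (by simp)
  rw [evV_br, map_sub, eq_neg_of_add_eq_zero_right h1, eq_neg_of_add_eq_zero_right h2,
    hs (evV V P) (evV W P), sub_self]

lemma zero_of_right {g : ℝ → F} {g' : F} (h : HasDerivAt g g' 0) (h0 : ∀ᶠ t in 𝓝[>] 0, g t = 0) :
    g 0 = 0 ∧ g' = 0 := by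
  have h1 : g 0 = 0 := tendsto_nhds_unique (h.continuousAt.tendsto.mono_left nhdsWithin_le_nhds)
    (tendsto_const_nhds.congr' (h0.mono fun _ h => h.symm))
  refine ⟨h1, ?_⟩
  have h2 : HasDerivWithinAt g 0 (Ioi 0) 0 :=
    (hasDerivWithinAt_const (0 : ℝ) (Ioi 0) (0 : F)).congr_of_eventuallyEq h0 h1
  exact (uniqueDiffWithinAt_Ioi 0).eq_deriv _ h.hasDerivWithinAt h2

lemma two_fields (hU : IsOpen U) (hN : ∀ P ∈ U, Ngon P) (hf : ContDiffOn ℝ 2 f U)
    (h : ∀ P ∈ U, ∀ᶠ t in 𝓝[>] (0 : ℝ), f (q t P) = f (r t P)) : Ann U f xi ∧ Ann U f ze := by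
  have key : ∀ P ∈ U, fderiv ℝ f P (ua P) - fderiv ℝ f P (ub P) = 0 ∧
      fderiv ℝ (fderiv ℝ f) P (ua P) (ua P) - fderiv ℝ (fderiv ℝ f) P (ub P) (ub P) = 0 := by
    intro P hP
    have hl : ∀ a : E, ∀ t : ℝ, HasDerivAt (fun t : ℝ => P + t • a) a t := fun a t => by
      simpa using ((hasDerivAt_id t).smul_const a).const_add P
    have hm : ∀ a : E, ∀ᶠ t in 𝓝 (0 : ℝ), P + t • a ∈ U := fun a =>
      (hl a 0).continuousAt.preimage_mem_nhds (by simpa using hU.mem_nhds hP)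
    have hd : DifferentiableAt ℝ (fderiv ℝ f) P :=
      ((hf.contDiffAt (hU.mem_nhds hP)).fderiv_right (m := 1) (by norm_num)).differentiableAt
        one_ne_zero
    have h2 : ∀ a : E, HasDerivAt (fun t : ℝ => fderiv ℝ f (P + t • a) a)
        (fderiv ℝ (fderiv ℝ f) P a a) 0 := by
      intro a
      have h3 : HasFDerivAt (fderiv ℝ f) (fderiv ℝ (fderiv ℝ f) P) (P + (0 : ℝ) • a) := by
        simpa using hd.hasFDerivAt
      simpa using (h3.comp_hasDerivAt (0 : ℝ) (hl a 0)).clm_apply (hasDerivAt_const (0 : ℝ) a)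
    have h3 := zero_of_right ((h2 (ua P)).sub (h2 (ub P))) (by
      have h4 := eventually_eventually_nhdsWithin.2 (h P hP)
      filter_upwards [h4, nhdsWithin_le_nhds (hm (ua P)), nhdsWithin_le_nhds (hm (ub P)),
        self_mem_nhdsWithin] with t ht ha hb ht0
      rw [nhdsWithin_eq_nhds.2 (Ioi_mem_nhds ht0)] at ht
      have da := ((hf.contDiffAt (hU.mem_nhds ha)).differentiableAt
        two_ne_zero).hasFDerivAt.comp_hasDerivAt t (hl (ua P) t)
      have db := ((hf.contDiffAt (hU.mem_nhds hb)).differentiableAt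
        two_ne_zero).hasFDerivAt.comp_hasDerivAt t (hl (ub P) t)
      exact sub_eq_zero.2 (da.unique (db.congr_of_eventuallyEq ht)))
    simpa using h3
  have hx : Ann U f xi := fun P hP => by rw [evV_xi, map_sub]; exact (key P hP).1
  refine ⟨hx, fun P hP => ?_⟩
  have h1 := hx.deriv hU hN hf eta hP
  have hs := (hf.contDiffAt (hU.mem_nhds hP)).isSymmSndFDerivAt (by simp)
  rw [evV_xi, evV_eta, map_add, add_apply, map_sub, map_sub, hs (ua P) (ub P),
    sub_add_sub_cancel, (key P hP).2, zero_add] at h1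
  exact h1

lemma four_fields (hU : IsOpen U) (hN : ∀ P ∈ U, Ngon P) (hf : ContDiffOn ℝ 2 f U)
    (h : ∀ P ∈ U, ∀ᶠ t in 𝓝[>] (0 : ℝ), f (q t P) = f (r t P)) (j : Fin 4) :
    Ann U f (![xi, ze, v3, v4] j) := by
  obtain ⟨h1, h2⟩ := two_fields hU hN hf h
  have h3 := h1.br hU hN hf h2
  have h4 := h1.br hU hN hf h3
  fin_cases j
  exacts [h1, h2, h3, h4]

end

def Ar (P : E) : ℝ := (P 1 - P 0).re * (P 2 - P 0).im - (P 1 - P 0).im * (P 2 - P 0).re

lemma Ar_smooth : ContDiff ℝ 2 Ar := by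
  unfold Ar
  have h1 : ContDiff ℝ 2 (Complex.re) := Complex.reCLM.contDiff
  have h2 : ContDiff ℝ 2 (Complex.im) := Complex.imCLM.contDiff
  fun_prop

lemma Ar_inv (t : ℝ) (P : E) : Ar (q t P) = Ar (r t P) := by
  have e1 : (0 : Fin 3) - 1 = 2 := rfl
  have e2 : (1 : Fin 3) - 1 = 0 := rfl
  have e3 : (2 : Fin 3) - 1 = 1 := rfl
  have e4 : (0 : Fin 3) + 1 = 1 := rfl
  have e5 : (1 : Fin 3) + 1 = 2 := rfl
  have e6 : (2 : Fin 3) + 1 = 0 := rfl
  simp only [Ar, q, r, e1, e2, e3, e4, e5, e6, norm_sub_rev (P 1) (P 0), norm_sub_rev (P 2) (P 1),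
    norm_sub_rev (P 0) (P 2), Complex.sub_re, Complex.sub_im, Complex.add_re, Complex.add_im,
    Complex.smul_re, Complex.smul_im, smul_eq_mul]
  ring

lemma fd_line {F : Type*} [NormedAddCommGroup F] [NormedSpace ℝ F] {f : E → F} {P a : E} {b : F}
    (hf : DifferentiableAt ℝ f P) {g : ℝ → F} (hg : HasDerivAt g b 0)
    (h : ∀ᶠ t in 𝓝 (0 : ℝ), f (P + t • a) = g t) : fderiv ℝ f P a = b := by
  have hl : HasDerivAt (fun t : ℝ => P + t • a) a 0 := by
    simpa using ((hasDerivAt_id (0 : ℝ)).smul_const a).const_add P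
  have h3 : HasFDerivAt f (fderiv ℝ f P) (P + (0 : ℝ) • a) := by simpa using hf.hasFDerivAt
  exact (h3.comp_hasDerivAt (0 : ℝ) hl).unique (hg.congr_of_eventuallyEq h)

noncomputable def P0 : E := ![0, 3, 3 + 4 * Complex.I]

lemma P0_M : Mf P0 = fun i => (M0 i : ℝ) := by
  have h5 : ‖(-(4 * Complex.I) + -3 : ℂ)‖ = 5 := by
    rw [Complex.norm_def, Complex.normSq_apply,
      Real.sqrt_eq_iff_mul_self_eq (add_nonneg (mul_self_nonneg _) (mul_self_nonneg _)) (by norm_num)]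
    simp; norm_num
  ext i
  fin_cases i <;> simp [Mf, P0, M0, h5]

lemma P0_X : Xf P0 = fun i => (X0 i : ℝ) := by
  ext i
  rw [Xf, P0_M]
  fin_cases i <;> simp [LX_apply, P0, M0, X0] <;> norm_num

lemma P0_Y : Yf P0 = fun i => (Y0 i : ℝ) := by
  ext i
  rw [Yf, P0_M]
  fin_cases i <;> simp [LY_apply, P0, M0, Y0] <;> norm_num

lemma P0_N : Ngon P0 := by
  intro i
  fin_cases i <;> simp [P0, Complex.ext_iff]

lemma ev_P0 (e : Ex) : ev e P0 = ((e.eval X0 Y0 M0 : ℚ) : ℝ) := by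
  rw [eval_cast, ev, P0_X, P0_Y, P0_M]

lemma indep0 : LinearIndependent ℝ fun j : Fin 4 => evV (![xi, ze, v3, v4] j) P0 := by
  rw [Fintype.linearIndependent_iff]
  intro c hc
  have r1 := row1
  have r2 := row2
  have r3 := row3
  have r4 := row4
  simp only [row, List.cons.injEq, and_true] at r1 r2 r3 r4
  have a0 := congrArg (fun z : E => (z 0).re) hc
  have a1 := congrArg (fun z : E => (z 0).im) hc
  have a2 := congrArg (fun z : E => (z 1).re) hc
  have a3 := congrArg (fun z : E => (z 1).im) hc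
  simp only [Fin.sum_univ_four, Matrix.cons_val_zero, Matrix.cons_val_one, Matrix.cons_val,
    Pi.add_apply, Pi.smul_apply, Pi.zero_apply, evV, ev_P0, r1.1, r1.2.1, r1.2.2.1, r1.2.2.2,
    r2.1, r2.2.1, r2.2.2.1, r2.2.2.2, r3.1, r3.2.1, r3.2.2.1, r3.2.2.2, r4.1, r4.2.1, r4.2.2.1,
    r4.2.2.2] at a0 a1 a2 a3
  simp at a0 a1 a2 a3
  have c0 : c 0 = 0 := by linarith
  have c1 : c 1 = 0 := by linarith
  have c2 : c 2 = 0 := by linarith
  have c3 : c 3 = 0 := by linarith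
  intro j
  fin_cases j
  exacts [c0, c1, c2, c3]

theorem main : ¬ ∃ (U : Set E) (C : E → ℂ), IsOpen U ∧ (∀ P ∈ U, Ngon P) ∧
    (∀ P, Ngon P → P ∈ closure U) ∧ ContDiffOn ℝ 2 C U ∧
    (∀ P ∈ U, ∀ v : ℂ, P + (fun _ => v) ∈ U → C (P + fun _ => v) = C P + v) ∧
    ∀ t > 0, ∀ P, Ngon P → r t P ∈ U → q t P ∈ U → (∀ i, 2 * t < ‖r t P (i + 1) - r t P i‖) →
      C (q t P) = C (r t P) := by
  rintro ⟨U, C, hU, hN, hD, hC, h1, h2⟩
  have hl : ∀ P a : E, ContinuousAt (fun t : ℝ => P + t • a) 0 := fun P a => by fun_prop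
  have hm : ∀ P ∈ U, ∀ a : E, ∀ᶠ t in 𝓝 (0 : ℝ), P + t • a ∈ U := fun P hP a =>
    (hl P a).preimage_mem_nhds (by simpa using hU.mem_nhds hP)
  have hCa := four_fields hU hN hC (fun P hP => by
    have h3 : ∀ᶠ t in 𝓝 (0 : ℝ), ∀ i, 2 * t < ‖r t P (i + 1) - r t P i‖ := by
      refine eventually_all.2 fun i => ContinuousAt.eventually_lt (by fun_prop) ?_ ?_
      · simp only [r_eq]; fun_prop
      · simpa [r_eq, sub_ne_zero] using (hN P hP i).symm
    filter_upwards [nhdsWithin_le_nhds (hm P hP (ua P)), nhdsWithin_le_nhds (hm P hP (ub P)),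
      nhdsWithin_le_nhds h3, self_mem_nhdsWithin] with t ha hb hc ht
    exact h2 t ht P (hN P hP) hb ha hc)
  have hAa := four_fields hU hN Ar_smooth.contDiffOn
    (fun P _ => Eventually.of_forall fun t => Ar_inv t P)
  have hcont : ContinuousAt (fun P (j : Fin 4) => evV (![xi, ze, v3, v4] j) P) P0 :=
    continuousAt_pi.2 fun j => (hasEvV P0_N _).choose_spec.1.continuousAt
  have hA0 : Ar P0 ≠ 0 := by simp [Ar, P0]
  obtain ⟨P, ⟨hi, hA⟩, hP⟩ := mem_closure_iff_nhds.1 (hD P0 P0_N) _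
    ((hcont.eventually indep0.eventually).and (Ar_smooth.continuous.continuousAt.eventually_ne hA0))
  have hCd : DifferentiableAt ℝ C P := (hC.contDiffAt (hU.mem_nhds hP)).differentiableAt two_ne_zero
  have hAd : DifferentiableAt ℝ Ar P := Ar_smooth.differentiable two_ne_zero P
  have t1 : ∀ v : ℂ, fderiv ℝ C P (fun _ => v) = v := fun v =>
    fd_line hCd (g := fun t : ℝ => C P + t • v)
      (by simpa using ((hasDerivAt_id (0 : ℝ)).smul_const v).const_add (C P))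
      ((hm P hP fun _ => v).mono fun t ht => h1 P hP (t • v) ht)
  have t2 : ∀ v : ℂ, fderiv ℝ Ar P (fun _ => v) = 0 := fun v =>
    fd_line hAd (hasDerivAt_const (0 : ℝ) (Ar P)) (Eventually.of_forall fun t => by simp [Ar])
  have t3 : fderiv ℝ Ar P P = 2 * Ar P :=
    fd_line hAd (g := fun t : ℝ => (1 + t) ^ 2 * Ar P)
      (by simpa using (((hasDerivAt_id (0 : ℝ)).const_add 1).pow 2).mul_const (Ar P))
      (Eventually.of_forall fun t => by simp [Ar]; ring)
  let L : E →ₗ[ℝ] ℂ × ℝ := (fderiv ℝ C P).toLinearMap.prod (fderiv ℝ Ar P).toLinearMap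
  have hsurj : LinearMap.range L = ⊤ := by
    rw [LinearMap.range_eq_top]
    rintro ⟨w, s⟩
    refine ⟨(s / (2 * Ar P)) • P + fun _ => w - (s / (2 * Ar P)) • fderiv ℝ C P P, ?_⟩
    refine Prod.ext ?_ ?_
    · change fderiv ℝ C P _ = w
      rw [map_add, map_smul, t1]
      abel
    · change fderiv ℝ Ar P _ = s
      rw [map_add, map_smul, t2, t3, smul_eq_mul]
      field_simp
      ring
  have hk := LinearMap.finrank_range_add_finrank_ker L
  rw [hsurj] at hk
  simp only [finrank_top, Module.finrank_prod, Complex.finrank_real_complex, Module.finrank_self,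
    Module.finrank_pi_fintype, Finset.sum_const, Finset.card_univ, Fintype.card_fin,
    smul_eq_mul] at hk
  have hi' : LinearIndependent ℝ fun j : Fin 4 =>
      (⟨evV (![xi, ze, v3, v4] j) P, Prod.ext (hCa j P hP) (hAa j P hP)⟩ : LinearMap.ker L) :=
    LinearIndependent.of_comp (LinearMap.ker L).subtype hi
  have := hi'.fintype_card_le_finrank
  simp only [Fintype.card_fin] at this
  omega

end Pool.Agent.H.MP_c6a450_an
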